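import Pool.Agent.helper22.FI.SpecA

/-!
# Project fi (MP_baa4d7_al): row EXB, induced blocks exist
-/

set_option autoImplicit false

namespace Pool.Agent.FI

open Pool.Agent.helper58.DC Pool.Agent.DI Pool.Agent.GR Pool.Agent.OB

theorem EXB (h1 : MLT_stmt) (h2 : CVF_stmt) (h3 : CCI_stmt) (h4 : EXP_stmt) (h5 : B2_stmt)
    (h6 : C3_stmt) : EXB_stmt := by
  classical
  intro p M hS G _ _ L Q hQ hQL θ hθ
  by_contra hcon
  push Not at hcon
  obtain ⟨-, -, -, -, -, -, -, hCF, hCFs, hCFd, hInt, -⟩ := h2 G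
  have hHL : L ⊓ cz Q ≤ L := inf_le_left
  have hmult := (h1 p M hS G L Q hQ hQL).1
  have hdl : CF L (dl : G → ℂ) := hCFd L
  have hdl' : ∀ x, IntAt M ((dl : G → ℂ) x) := by
    intro x
    unfold dl
    split_ifs
    · exact IntAt.one hS
    · exact IntAt.zero hS
  have cθ := h3 G (L ⊓ cz Q) θ hθ
  have hLint : ∀ z : G → ℂ, CF L z → (∀ x, IntAt M (z x)) → IntAt M (cc θ z) := by
    intro z hz hz'
    exact (cθ.2.2 p M hS z fun h hh x => hz.1 h (hHL hh) x).1 hz'
  have key : ∀ T : Finset (G → ℂ), (∀ ψ ∈ T, ψ ∈ IrrOn L) → ∃ g : G → ℂ, CF L g ∧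
      (∀ x, IntAt M (g x)) ∧ (∀ ψ ∈ T, cc ψ g = 0) ∧ ¬ InM M (cc θ g) := by
    intro T
    induction T using Finset.induction_on with
    | empty =>
      intro _
      refine ⟨dl, hdl, hdl', by simp, ?_⟩
      rw [(cθ.1 0 dl dl).2.2.2]
      exact InM.not_one hS
    | insert ψ T hψT ih =>
      intro hT
      obtain ⟨g, hg, hg', hgT, hgθ⟩ := ih fun φ hφ => hT φ (Finset.mem_insert_of_mem hφ)
      have hψ : ψ ∈ IrrOn L := hT ψ (Finset.mem_insert_self _ _)
      have hnot := hcon ψ hψ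
      unfold SB at hnot
      push Not at hnot
      obtain ⟨f, hf, hf', hfθ0⟩ := hnot
      have hθi : IsIntegral ℤ (cc θ f) :=
        (h6 G).1 (L ⊓ cz Q) θ hθ f (fun l hl x => hf.1 l (hHL hl) x) hf'
      have hψi : IsIntegral ℤ (cc ψ f) := (h6 G).1 L ψ hψ f hf.1 hf'
      have hfθ : ¬ InM M (cc θ f - cc ψ f) := fun h => hfθ0 (InM.mcong hS hθi hψi h)
      have hf'' : ∀ x, IntAt M (f x) := fun x => IntAt.of_isIntegral hS (hf' x)
      have cψ := h3 G L ψ hψ
      have hk : IntAt M (cc ψ f) := IntAt.of_isIntegral hS hψi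
      set g' : G → ℂ := f - (cc ψ f) • dl with hg'def
      have hg'1 : CF L g' := (hCF L _ _ hf (hCFs L (cc ψ f) dl hdl)).2.2
      have hg'2 : ∀ x, IntAt M (g' x) := by
        intro x
        have : g' x = f x - cc ψ f * dl x := by simp [hg'def]
        rw [this]
        exact (hf'' x).sub hS (hk.mul hS (hdl' x))
      have hg'3 : cc ψ g' = 0 := by
        rw [hg'def, (cψ.1 0 f _).2.1, (cψ.1 (cc ψ f) dl dl).2.2.1, (cψ.1 0 dl dl).2.2.2, mul_one,
          sub_self]
      have hg'4 : ¬ InM M (cc θ g') := by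
        rw [hg'def, (cθ.1 0 f _).2.1, (cθ.1 (cc ψ f) dl dl).2.2.1, (cθ.1 0 dl dl).2.2.2, mul_one]
        exact hfθ
      refine ⟨cv g g', (hCF L _ _ hg hg'1).1, hInt p M hS g g' hg' hg'2, ?_, ?_⟩
      · intro φ hφ
        have hφ' : φ ∈ IrrOn L := hT φ hφ
        rw [(h3 G L φ hφ').2.1 g g' hg hg'1]
        rcases Finset.mem_insert.1 hφ with rfl | hφT
        · rw [hg'3, mul_zero]
        · rw [hgT φ hφT, zero_mul]
      · intro hbad
        have hm := ((hmult g g' hg hg'1 hg' hg'2).2.2 θ hθ).2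
        have hprod : InM M (cc θ g * cc θ g') := by
          have := hbad.sub hS hm
          rwa [sub_sub_cancel] at this
        rcases InM.or hS (hLint g hg hg') (hLint g' hg'1 hg'2) hprod with h | h
        · exact hgθ h
        · exact hg'4 h
  have hfin : (IrrOn L).Finite := (h5 G L).1
  obtain ⟨g, hg, hg', hgT, hgθ⟩ := key hfin.toFinset fun ψ hψ => (Set.Finite.mem_toFinset hfin).1 hψ
  have hg0 : g = 0 := h4 G L g hg fun ψ hψ => hgT ψ ((Set.Finite.mem_toFinset hfin).2 hψ)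
  apply hgθ
  rw [hg0]
  have : cc θ (0 : G → ℂ) = 0 := by
    unfold cc
    simp
  rw [this]
  exact InM.zero hS

end Pool.Agent.FI
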