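import Pool.Agent.helper22.FI.SpecA

/-!
# Project fi (MP_baa4d7_al): row TPR, the case of the whole group
-/

set_option autoImplicit false

namespace Pool.Agent.FI

open Pool.Agent.helper58.DC Pool.Agent.DI Pool.Agent.GR Pool.Agent.OB

theorem TPR (h1 : CLS_stmt) (h2 : DCM_stmt) (h3 : TI_stmt) : TPR_stmt := by
  intro p M hS G _ _
  have hom : ∀ (ψ : G → ℂ) (y : G), omega ψ y = cc ψ (cls ⊤ y) := fun ψ y =>
    (h1 G ⊤ y).2.2.2.2.2.2.2.1 ψ
  have hCz : ∀ y : G, Cz (⊤ : Subgroup G) y = Subgroup.centralizer {y} := fun y => top_inf_eq _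
  have hInd : ∀ η ψ : G → ℂ, Induces M η ψ ↔ SB M ⊤ η ψ := by
    intro η ψ
    rw [(h2 G ⊤ M p hS).2 η ψ]
    constructor
    · intro h y _
      obtain ⟨a, ha, e⟩ := h y
      rw [hom, hom] at e
      exact ⟨a, ha, e⟩
    · intro h y
      obtain ⟨a, ha, e⟩ := h y (Subgroup.mem_top y)
      refine ⟨a, ha, ?_⟩
      rw [hom, hom]
      exact e
  refine ⟨Set.ext fun χ => h3 G χ, hInd, ?_, ?_, hCz⟩
  · intro χ D x hD
    refine ⟨hD.reg, Subgroup.mem_top x, ?_, hD.pgrp, ?_, ?_, ?_⟩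
    · rw [hCz]; exact hD.le
    · rw [hCz]; exact hD.card
    · rw [← hom]; exact hD.ne
    · intro y _ hy
      rw [hCz]
      exact hD.min y (by rw [hom]; exact hy)
  · intro χ H
    ext η
    constructor
    · rintro ⟨ha, hb⟩
      exact ⟨ha, (hInd η χ).1 hb⟩
    · rintro ⟨ha, hb⟩
      exact ⟨ha, (hInd η χ).2 hb⟩

end Pool.Agent.FI
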